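import Pool.Agent.Helper30.LY.St

/-!
# Project LY, module SRY: an upper bound sieve with three classes
-/

set_option autoImplicit false

noncomputable section

namespace Pool.Agent.Helper71.LY

open Pool.Agent.Helper30.LY
open Finset
open Pool.Agent.Helper15.AB (StMT)
open Pool.Agent.Helper30.PB (StPIP)
open Pool.Agent.Helper30.LK (StSVU)

/-- the sum of `1 / l` over the primes `7 ≤ l ≤ n` -/
private lemma sry_sum (n : ℕ) : ∑ l ∈ (Icc 1 n).filter Nat.Prime, (1 : ℝ) / l ≤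
    ∑ l ∈ (Icc 7 n).filter Nat.Prime, (1 : ℝ) / l + 2 := by
  have hsub : (Icc 1 n).filter Nat.Prime ⊆
      (Icc 7 n).filter Nat.Prime ∪ (Icc 1 6).filter Nat.Prime := by
    intro l hl
    rw [mem_filter, mem_Icc] at hl
    rw [mem_union, mem_filter, mem_filter, mem_Icc, mem_Icc]
    by_cases h : 7 ≤ l
    · exact Or.inl ⟨⟨h, hl.1.2⟩, hl.2⟩
    · exact Or.inr ⟨⟨hl.1.1, by omega⟩, hl.2⟩
  have hnn : ∀ l : ℕ, (0 : ℝ) ≤ 1 / l := fun l => by positivity
  have h1 := sum_le_sum_of_subset_of_nonneg (f := fun l : ℕ => (1 : ℝ) / l) hsub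
    (fun l _ _ => hnn l)
  have h2 := sum_union_inter (s₁ := (Icc 7 n).filter Nat.Prime)
    (s₂ := (Icc 1 6).filter Nat.Prime) (f := fun l : ℕ => (1 : ℝ) / l)
  have h3 : (0 : ℝ) ≤ ∑ l ∈ (Icc 7 n).filter Nat.Prime ∩ (Icc 1 6).filter Nat.Prime, (1 : ℝ) / l :=
    sum_nonneg fun l _ => hnn l
  have h4 : ∑ l ∈ (Icc 1 6).filter Nat.Prime, (1 : ℝ) / l ≤ 2 := by
    have e : (Icc 1 6).filter Nat.Prime = {2, 3, 5} := by decide
    rw [e, sum_insert (by decide), sum_insert (by decide), sum_singleton]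
    norm_num
  linarith

private lemma lt_of_le_rpow {x K l : ℕ} {δ : ℝ} (hx : 4 ≤ x) (hK : 2 ≤ K) (hKx : K ≤ x ^ 2)
    (hδ : δ ≤ 1 / 4) (hl : (l : ℝ) ≤ (K : ℝ) ^ δ) : 2 * l ≤ x := by
  have hx0 : (0 : ℝ) ≤ x := Nat.cast_nonneg _
  have hK1 : (1 : ℝ) ≤ K := by exact_mod_cast (by omega : 1 ≤ K)
  have h1 : (K : ℝ) ^ δ ≤ (K : ℝ) ^ (1 / 4 : ℝ) := Real.rpow_le_rpow_of_exponent_le hK1 hδ
  have h2 : (K : ℝ) ^ (1 / 4 : ℝ) ≤ ((x : ℝ) ^ 2) ^ (1 / 4 : ℝ) :=
    Real.rpow_le_rpow (by positivity) (by exact_mod_cast hKx) (by norm_num)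
  have h3 : ((x : ℝ) ^ 2) ^ (1 / 4 : ℝ) = √(x : ℝ) := by
    rw [Real.sqrt_eq_rpow, ← Real.rpow_natCast, ← Real.rpow_mul hx0]
    norm_num
  have h4 : √(x : ℝ) ≤ x / 2 := by
    rw [Real.sqrt_le_left (by positivity)]
    have : (4 : ℝ) ≤ x := by exact_mod_cast hx
    nlinarith
  have h5 : (l : ℝ) ≤ x / 2 := hl.trans (h1.trans (h2.trans (h3.le.trans h4)))
  have h6 : ((2 * l : ℕ) : ℝ) ≤ x := by
    push_cast
    linarith
  exact_mod_cast h6

private lemma sry_cls (l : ℕ) (hl : l.Prime) (h7 : 7 ≤ l) : ∃ T : Finset ℕ, (∀ s ∈ T, s < l) ∧ T.card = 3 ∧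
    ∀ s ∈ T, (l : ℤ) ∣ (5 * (s : ℤ) + 4) * ((s : ℤ) - 4) * (3 * (s : ℤ) + 4) := by
  have h5 : l % 5 ≠ 0 := by
    intro h
    have h1 : 5 ∣ l := Nat.dvd_of_mod_eq_zero h
    have h2 := (Nat.prime_dvd_prime_iff_eq (by norm_num) hl).1 h1
    omega
  have h3 : l % 3 ≠ 0 := by
    intro h
    have h1 : 3 ∣ l := Nat.dvd_of_mod_eq_zero h
    have h2 := (Nat.prime_dvd_prime_iff_eq (by norm_num) hl).1 h1
    omega
  obtain ⟨b, hb, k, hk⟩ : ∃ b < l, ∃ k : ℕ, 5 * b + 4 = k * l := by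
    have : l % 5 = 1 ∨ l % 5 = 2 ∨ l % 5 = 3 ∨ l % 5 = 4 := by omega
    rcases this with h | h | h | h
    · exact ⟨(4 * l - 4) / 5, by omega, 4, by omega⟩
    · exact ⟨(2 * l - 4) / 5, by omega, 2, by omega⟩
    · exact ⟨(3 * l - 4) / 5, by omega, 3, by omega⟩
    · exact ⟨(1 * l - 4) / 5, by omega, 1, by omega⟩
  obtain ⟨c, hc, m, hm⟩ : ∃ c < l, ∃ m : ℕ, 3 * c + 4 = m * l := by
    have : l % 3 = 1 ∨ l % 3 = 2 := by omega
    rcases this with h | h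
    · exact ⟨(1 * l - 4) / 3, by omega, 1, by omega⟩
    · exact ⟨(2 * l - 4) / 3, by omega, 2, by omega⟩
  have hbd : l ∣ 5 * b + 4 := ⟨k, by rw [hk, mul_comm]⟩
  have hcd : l ∣ 3 * c + 4 := ⟨m, by rw [hm, mul_comm]⟩
  have hsmall : ∀ p : ℕ, p.Prime → p < 7 → ¬ l ∣ p := by
    intro p hp hp7 h
    have := (Nat.prime_dvd_prime_iff_eq hl hp).1 h
    omega
  have hn4 : ¬ l ∣ 4 := by
    intro h
    have := Nat.le_of_dvd (by norm_num) h
    omega
  have hb4 : (4 : ℕ) ≠ b := by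
    rintro rfl
    have h24 : l ∣ 2 * 2 * 2 * 3 := hbd
    rcases (Nat.Prime.dvd_mul hl).1 h24 with h | h
    · rcases (Nat.Prime.dvd_mul hl).1 h with h | h
      · exact hn4 h
      · exact hsmall 2 (by norm_num) (by norm_num) h
    · exact hsmall 3 (by norm_num) (by norm_num) h
  have hc4 : (4 : ℕ) ≠ c := by
    rintro rfl
    have h16 : l ∣ 4 * 4 := hcd
    rcases (Nat.Prime.dvd_mul hl).1 h16 with h | h
    · exact hn4 h
    · exact hn4 h
  have hbc : b ≠ c := by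
    rintro rfl
    have h1 : l ∣ (5 * b + 4) - (3 * b + 4) := Nat.dvd_sub hbd hcd
    have h2 : (5 * b + 4) - (3 * b + 4) = 2 * b := by omega
    rw [h2] at h1
    rcases (Nat.Prime.dvd_mul hl).1 h1 with h | h
    · exact hsmall 2 (by norm_num) (by norm_num) h
    · have h3 : l ∣ (5 * b + 4) - 5 * b := Nat.dvd_sub hbd (h.mul_left 5)
      have h4 : (5 * b + 4) - 5 * b = 4 := by omega
      rw [h4] at h3
      exact hn4 h3
  refine ⟨{4, b, c}, ?_, ?_, ?_⟩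
  · intro s hs
    rw [mem_insert, mem_insert, mem_singleton] at hs
    rcases hs with rfl | rfl | rfl
    · omega
    · exact hb
    · exact hc
  · rw [card_insert_of_notMem, card_pair hbc]
    rw [mem_insert, mem_singleton]
    rintro (h | h)
    · exact hb4 h
    · exact hc4 h
  · intro s hs
    rw [mem_insert, mem_insert, mem_singleton] at hs
    rcases hs with rfl | rfl | rfl
    · have : ((4 : ℕ) : ℤ) - 4 = 0 := by norm_num
      rw [this, mul_zero, zero_mul]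
      exact dvd_zero _
    · have h1 : (l : ℤ) ∣ 5 * (s : ℤ) + 4 := by exact_mod_cast hbd
      exact (h1.mul_right _).mul_right _
    · have h1 : (l : ℤ) ∣ 3 * (s : ℤ) + 4 := by exact_mod_cast hcd
      exact h1.mul_left _

open Classical in
theorem hSRY (hS : StSVU) (hM : StMT) : StSRY := by
  obtain ⟨C, δ, hC, hδ, hδ4, hS⟩ := hS
  obtain ⟨D, hD, hM⟩ := hM
  refine ⟨C * (Real.exp (3 * (D + 2)) / δ ^ 3) + (Real.log 3 / δ) ^ 3 + 1, by positivity, ?_⟩
  intro x K hx hK hKx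
  have hK2 : (2 : ℝ) ≤ K := by exact_mod_cast hK
  have hK0 : (0 : ℝ) < K := by linarith
  have hlK : 0 < Real.log K := Real.log_pos (by linarith)
  have hX : 0 < (K : ℝ) / Real.log K ^ 3 := by positivity
  have hlog3 : 0 < Real.log 3 := Real.log_pos (by norm_num)
  by_cases hbig : 3 ≤ (K : ℝ) ^ δ
  · -- the sieve
    obtain ⟨S, hSd⟩ : ∃ S : ℕ → Finset ℕ, S = fun l : ℕ =>
      if h : l.Prime ∧ 7 ≤ l then Classical.choose (sry_cls l h.1 h.2) else ∅ := ⟨_, rfl⟩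
    have hSp : ∀ l : ℕ, l.Prime → 7 ≤ l → (∀ s ∈ S l, s < l) ∧ (S l).card = 3 ∧
        ∀ s ∈ S l, (l : ℤ) ∣ (5 * (s : ℤ) + 4) * ((s : ℤ) - 4) * (3 * (s : ℤ) + 4) := by
      intro l hl h7
      have e : S l = Classical.choose (sry_cls l hl h7) := by
        rw [hSd]
        dsimp only
        rw [dif_pos ⟨hl, h7⟩]
      rw [e]
      exact Classical.choose_spec (sry_cls l hl h7)
    have hS1 := hS K hK S (fun l hl h7 => ⟨(hSp l hl h7).1, (hSp l hl h7).2.1.le⟩)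
    have hsub : Sy x K ⊆
        (Icc 1 K).filter (fun m : ℕ => ∀ l : ℕ, l.Prime → 7 ≤ l → (l : ℝ) ≤ (K : ℝ) ^ δ →
          m % l ∉ S l) := by
      intro y hy
      unfold Sy at hy
      rw [mem_filter] at hy ⊢
      refine ⟨hy.1, fun l hl h7 hlK hmem => ?_⟩
      have h2l : 2 * l ≤ x := lt_of_le_rpow hx hK hKx hδ4 hlK
      refine hy.2 l hl h7 h2l ?_
      have h1 := (hSp l hl h7).2.2 _ hmem
      have h2 : ((y % l : ℕ) : ℤ) ≡ (y : ℤ) [ZMOD l] := by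
        rw [Int.natCast_mod]
        exact Int.mod_modEq _ _
      have h3 : (5 * ((y % l : ℕ) : ℤ) + 4) * (((y % l : ℕ) : ℤ) - 4) * (3 * ((y % l : ℕ) : ℤ) + 4) ≡
          (5 * (y : ℤ) + 4) * ((y : ℤ) - 4) * (3 * (y : ℤ) + 4) [ZMOD l] :=
        ((((h2.mul_left 5).add_right 4).mul (h2.sub_right 4)).mul ((h2.mul_left 3).add_right 4))
      exact (Int.modEq_zero_iff_dvd).1 (h3.symm.trans ((Int.modEq_zero_iff_dvd).2 h1))
    have hcard : ((Sy x K).card : ℝ) ≤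
        C * K * Real.exp (-∑ l ∈ (Icc 7 ⌊(K : ℝ) ^ δ⌋₊).filter Nat.Prime, ((S l).card : ℝ) / l) := by
      refine le_trans ?_ hS1
      exact_mod_cast card_le_card hsub
    -- the sum
    have hsum : 3 * (Real.log (Real.log ((K : ℝ) ^ δ)) - D - 2) ≤
        ∑ l ∈ (Icc 7 ⌊(K : ℝ) ^ δ⌋₊).filter Nat.Prime, ((S l).card : ℝ) / l := by
      have h1 := (abs_le.1 (hM _ hbig)).1
      have h2 := sry_sum ⌊(K : ℝ) ^ δ⌋₊
      have h3 : ∑ l ∈ (Icc 7 ⌊(K : ℝ) ^ δ⌋₊).filter Nat.Prime, ((S l).card : ℝ) / l =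
          3 * ∑ l ∈ (Icc 7 ⌊(K : ℝ) ^ δ⌋₊).filter Nat.Prime, (1 : ℝ) / l := by
        rw [mul_sum]
        refine sum_congr rfl fun l hl => ?_
        rw [mem_filter, mem_Icc] at hl
        rw [(hSp l hl.2 hl.1.1).2.1]
        push_cast
        ring
      rw [h3]
      linarith
    have hlt : Real.log ((K : ℝ) ^ δ) = δ * Real.log K := Real.log_rpow hK0 _
    have hlt0 : 0 < δ * Real.log K := by positivity
    rw [hlt] at hsum
    have hexp : Real.exp (-∑ l ∈ (Icc 7 ⌊(K : ℝ) ^ δ⌋₊).filter Nat.Prime, ((S l).card : ℝ) / l) ≤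
        Real.exp (3 * (D + 2)) / δ ^ 3 / Real.log K ^ 3 := by
      have h1 : Real.exp (-∑ l ∈ (Icc 7 ⌊(K : ℝ) ^ δ⌋₊).filter Nat.Prime, ((S l).card : ℝ) / l) ≤
          Real.exp (3 * (D + 2) - ((3 : ℕ) : ℝ) * Real.log (δ * Real.log K)) :=
        Real.exp_le_exp.2 (by push_cast; linarith)
      rw [Real.exp_sub, Real.exp_nat_mul, Real.exp_log hlt0, mul_pow] at h1
      rw [div_div]
      exact h1
    calc ((Sy x K).card : ℝ) ≤ C * K *
          Real.exp (-∑ l ∈ (Icc 7 ⌊(K : ℝ) ^ δ⌋₊).filter Nat.Prime, ((S l).card : ℝ) / l) := hcard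
      _ ≤ C * K * (Real.exp (3 * (D + 2)) / δ ^ 3 / Real.log K ^ 3) :=
          mul_le_mul_of_nonneg_left hexp (by positivity)
      _ = (C * (Real.exp (3 * (D + 2)) / δ ^ 3)) * (K / Real.log K ^ 3) := by ring
      _ ≤ (C * (Real.exp (3 * (D + 2)) / δ ^ 3) + (Real.log 3 / δ) ^ 3 + 1) * (K / Real.log K ^ 3) := by
          refine mul_le_mul_of_nonneg_right ?_ hX.le
          have : 0 ≤ (Real.log 3 / δ) ^ 3 := by positivity
          linarith
  · -- small K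
    push Not at hbig
    have h1 : Real.log K ≤ Real.log 3 / δ := by
      rw [le_div_iff₀ hδ]
      have h2 := Real.log_le_log (Real.rpow_pos_of_pos hK0 δ) hbig.le
      rw [Real.log_rpow hK0] at h2
      linarith
    have h2 : ((Sy x K).card : ℝ) ≤ K := by
      have h3 : (Sy x K).card ≤ K := by
        unfold Sy
        refine (card_filter_le _ _).trans ?_
        rw [Nat.card_Icc, Nat.add_sub_cancel]
      exact_mod_cast h3
    have h3 : (K : ℝ) = Real.log K ^ 3 * (K / Real.log K ^ 3) := by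
      field_simp
    calc ((Sy x K).card : ℝ) ≤ K := h2
      _ = Real.log K ^ 3 * (K / Real.log K ^ 3) := h3
      _ ≤ (C * (Real.exp (3 * (D + 2)) / δ ^ 3) + (Real.log 3 / δ) ^ 3 + 1) * (K / Real.log K ^ 3) := by
          refine mul_le_mul_of_nonneg_right ?_ hX.le
          have h4 : Real.log K ^ 3 ≤ (Real.log 3 / δ) ^ 3 := pow_le_pow_left₀ hlK.le h1 3
          have h5 : 0 ≤ C * (Real.exp (3 * (D + 2)) / δ ^ 3) := by positivity
          linarith

end Pool.Agent.Helper71.LY
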